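import Mathlib
import Pool.Agent.Mg.Ff492a7p.Gf9c647

namespace Pool.Agent.Results.MP_f492a7_an.Counterexample

open Pool.Agent.MP_f492a7_an

theorem result (q : ℝ) (hq : 2 ≤ q) :
    ∃ (Y : Type) (_ : NormedAddCommGroup Y) (_ : NormedSpace ℝ Y) (_ : CompleteSpace Y),
      (∃ K : ℝ, 0 < K ∧ HasCotype Y q K) ∧
      ∀ C Γ : ℝ, ∃ (n m : ℕ) (_ : NeZero m), 1 ≤ n ∧ Even m ∧ C * (n : ℝ) ^ (1 / q) ≤ m ∧
        ¬ MetricCotype Y q Γ n m := by
  obtain ⟨Y, i1, i2, i3, hK, H⟩ := counterexample_two hq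
  refine ⟨Y, i1, i2, i3, ⟨64, by norm_num, hK⟩, fun C Γ => ?_⟩
  have hq0 : 0 < q := by linarith
  set D : ℝ := |C| + 1 with hD
  have hD1 : 1 ≤ D := by linarith [abs_nonneg C]
  have hDq : 0 < D ^ q := by positivity
  obtain ⟨t, ht⟩ := exists_nat_gt (2 * |Γ ^ q| * D ^ q)
  have ht0 : (0 : ℝ) < t := lt_of_le_of_lt (by positivity) ht
  have ht1 : 1 ≤ t := by exact_mod_cast ht0
  have htq : (t : ℝ) ≤ (t : ℝ) ^ q :=
    Real.self_le_rpow_of_one_le (by exact_mod_cast ht1) (by linarith)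
  obtain ⟨k, hk⟩ := exists_nat_ge D
  set m := 2 * (k + 3 ^ (2 * t ^ 2)) with hm
  have h3 : 1 ≤ 3 ^ (2 * t ^ 2) := Nat.one_le_pow _ _ (by norm_num)
  have hmD : D ≤ m := hk.trans (by exact_mod_cast (by omega : k ≤ m))
  have hm0 : (0 : ℝ) < m := by linarith
  haveI : NeZero m := ⟨by omega⟩
  set X : ℝ := (m / D) ^ q with hX
  have hX1 : 1 ≤ X := Real.one_le_rpow ((one_le_div (by linarith)).2 hmD) hq0.le
  have hn1 : 1 ≤ ⌊X⌋₊ := Nat.le_floor (by exact_mod_cast hX1)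
  refine ⟨⌊X⌋₊, m, inferInstance, hn1, ⟨k + 3 ^ (2 * t ^ 2), by omega⟩, ?_, fun h => ?_⟩
  · have h1 : (⌊X⌋₊ : ℝ) ^ (1 / q) ≤ m / D := by
      refine (Real.rpow_le_rpow (by positivity) (Nat.floor_le (by linarith))
        (by positivity)).trans (le_of_eq ?_)
      rw [hX, one_div, Real.rpow_rpow_inv (by positivity) hq0.ne']
    calc C * (⌊X⌋₊ : ℝ) ^ (1 / q) ≤ D * (⌊X⌋₊ : ℝ) ^ (1 / q) :=
          mul_le_mul_of_nonneg_right (by linarith [le_abs_self C]) (by positivity)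
      _ ≤ D * (m / D) := mul_le_mul_of_nonneg_left h1 (by linarith)
      _ = m := by field_simp
  · have h1 := H Γ _ m t ht1 (by omega) h
    have h2 : X < 2 * ⌊X⌋₊ := by
      have := Nat.lt_floor_add_one X
      have : (1 : ℝ) ≤ ⌊X⌋₊ := by exact_mod_cast hn1
      linarith
    have h4 : (m : ℝ) ^ q = X * D ^ q := by
      rw [hX, Real.div_rpow hm0.le (by linarith)]
      field_simp
    rw [h4] at h1
    have h5 : X * t < 2 * ⌊X⌋₊ * (t : ℝ) ^ q := by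
      calc X * t < 2 * ⌊X⌋₊ * t := by gcongr
        _ ≤ _ := by gcongr
    nlinarith

end Pool.Agent.Results.MP_f492a7_an.Counterexample
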