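import Mathlib
import Pool.Agent.Mg.Ff492a7p.Ge3ab80

namespace Pool.Agent.Results.MP_f492a7_an.LatticeSharp

open Pool.Agent.MP_f492a7_an

universe u

theorem result (q K : ℝ) (hq : 2 ≤ q) (hK : 0 ≤ K) :
    ∃ Γ : ℝ, 0 < Γ ∧ ∀ (Y : Type u) [NormedAddCommGroup Y] [NormedSpace ℝ Y] [Lattice Y]
      [HasSolidNorm Y] [IsOrderedAddMonoid Y], HasCotype Y q K →
      ∀ (n m : ℕ) [NeZero m], Even m → (n : ℝ) ^ (1 / q) ≤ m → MetricCotype Y q Γ n m := by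
  obtain ⟨Γ, hΓ, H⟩ := lattice_sharp.{u} hq hK
  exact ⟨Γ, hΓ, fun Y _ _ _ _ _ hY n m _ _ h => H Y hY n m h⟩

end Pool.Agent.Results.MP_f492a7_an.LatticeSharp
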